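import Pool.Agent.Work.MP_298761_T2.StmtProof

/-!
# Variational Hodge conjecture for families of abelian varieties: commuting divisor classes

Let `A → S` be a family of complex abelian varieties over a connected base and `φ` a global
section of the local system `H^{even}(A_s, ℚ)` which is a Hodge class at every point. Suppose that
at one point `o` the class `φ o` is a polynomial in rational classes of degree 2 which, for some
polarised complex structure `B` on `H^1(A_o, ℚ)` (for instance that of `A_o`), are of type `(1,1)`
and have pairwise commuting endomorphisms. Then at every point `s` the class `φ s` is a polynomial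
in rational `(1,1)`-classes of `A_s`; so it is algebraic, by the Lefschetz theorem on
`(1,1)`-classes.
-/

namespace Pool.Agent.Results.MP_298761_ag.CommutingDivisors

open Pool.Agent.Work.MP_298761_T2 Pool.Agent.Work.MP_298761_T2.Stmt

theorem result (n : Type) [Fintype n] [DecidableEq n] (A : AbScheme n)
    (φ : A.S → HQ n) (hflat : IsFlat A φ) (hHodge : ∀ s, φ s ∈ Hdg (A.fib s))
    (o : A.S) (B : PolCS n) (D : Set (HQ n)) (hD : D ⊆ NS B) (hcomm : Commuting B D)
    (ho : φ o ∈ Algebra.adjoin ℚ D) :
    ∀ s, φ s ∈ Algebra.adjoin ℚ (NS (A.fib s)) :=
  vhc A φ hflat hHodge o B D hD hcomm ho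

end Pool.Agent.Results.MP_298761_ag.CommutingDivisors
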