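import Pool.Agent.Work.MP_298761_T8.All

/-!
Generated Hodge classes stay generated.

`X` is a continuous family, over a connected space `S`, of rational Hodge structures on
`V = V₀ ⊕ V₁` (for instance `V = H^*(X_s)` for a smooth projective family, even and odd degrees)
which preserve a symmetric form on `V₀` and the standard symplectic form on `V₁`; `X.N s ⊆ V₀` are
the rational Hodge classes at `s`; `E` is a commutative algebra of endomorphisms of `V₁`, stable
under adjoints, which commutes with a polarised complex structure; `φ` is a rational tensor in
`V^{⊗ n}` which is a Hodge tensor at every `s`.  If at one point `o` it is a linear combination of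
products, in any positions, of Hodge classes of `V₀`, of the inverse of the symmetric form, and of
the 2-tensors `e ω⁻¹`, `e ∈ E`, then the same is true with the Hodge classes replaced by any
nondegenerate `N` that contains the flat Hodge classes and with `E` replaced by the elements of `E`
which are endomorphisms of the Hodge structures of all fibres.
-/

namespace Pool.Agent.Results.MP_298761_ag.GeneratedClasses

open Pool.Agent.Work.T3 Pool.Agent.Work.T8

theorem result (S ι : Type) [TopologicalSpace S] [ConnectedSpace S] [Fintype ι] [DecidableEq ι]
    (g : ℕ) (X : HodgeFamily S ι g) (n : ℕ) (φ : Tens ℚ (Idx ι g) n)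
    (hφ : ∀ s, X.IsHodge s φ) (o : S) (ho : X.NonDeg (X.N o))
    (E : Subalgebra ℚ (Mat1 g ℚ)) (hE : Admissible E)
    (hd : Generated X (X.N o) (E : Set (Mat1 g ℚ)) φ) (N : Submodule ℚ (ι → ℚ))
    (hN : (⨅ s, X.N s) ≤ N) (hNd : X.NonDeg N) :
    Generated X N (flat X (E : Set (Mat1 g ℚ))) φ :=
  main S ι g X n φ hφ o ho E hE hd N hN hNd

end Pool.Agent.Results.MP_298761_ag.GeneratedClasses
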