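import Pool.Agent.Work.MP_298761_ls.Main

/-!
# The sign conjecture and the variational Hodge conjecture

Let `D` be Betti cohomology with real coefficients, `G` the very ample line bundles and the
smooth proper families.

For a single family `F` with projective total space `Z`, VHC for `F` follows from the sign
conjecture for one variety `Y`: a very general member of the linear system of a large power of
the product polarization of `(P¹ × P¹ × Z) × (P¹ × P¹ × Z)`.

The sign conjecture for all projective `X` implies VHC for all families.  VHC implies the
following four equivalent statements (each of them for all projective `X` and all very ample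
line bundles `M` on `X`):

* `VHCUpper`: VHC for the families of smooth members `Y` of the linear system of `M`, and the
  sections given by rational classes of `X` in the degrees above the middle of `Y`;
* `VHCHyperplane`: the same for `dim X = 2 m` and the classes of degree `2 m`, only;
* `ShortLefschetz`: the Lefschetz standard conjecture `A(X)`, one step short: `L^k` maps the
  algebraic classes of codimension `i` onto those of codimension `i + k`, for
  `2 i + k = dim X + 1`;
* `WeakLefschetz`: all algebraic classes on `X` of codimension `i + 1`, `2 i ≥ dim X`, are
  push-forwards of algebraic classes on `Y`, for every smooth member `Y` of the linear system of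
  `M`.

Each of these four statements implies the hard Lefschetz theorem for numerical equivalence
classes of algebraic cycles, and, for every single projective `X`, the equivalence of the
Lefschetz standard conjecture `B(X)`, the sign conjecture for `X`, and the nilpotence of the
numerically trivial correspondences on the varieties `P^k × X × X`; and `B(X)` for every
projective `X` without odd cohomology.
-/

open CategoryTheory MonoidalCategory CartesianMonoidalCategory

universe u v w b f

namespace Pool.Agent.Results.MP_298761_ag.SignImpliesVHC

open Pool.KC Pool.VHC

theorem result {V : Type u} [Category.{v} V] [CartesianMonoidalCategory V]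
    (D : WeilData.{u, v, w, 0} V ℝ) (hD : D.IsWeil)
    (G : Geometry.{u, v, w, b, f} D) (hG : G.IsPolarized) (hF : G.IsGeometric) :
    (∀ (F : G.Fam) (M : G.Bund (G.tot F)) (k : ℕ) (s : G.Pt (G.univ (G.pow (G.ambient M) k))),
      G.VeryGeneral (G.ambient M) (G.emb _ s) → SignConj D (G.member _ s) → G.VHCFor F) ∧
    ((∀ X : V, G.Bund X → SignConj D X) → G.VHC) ∧
    (G.VHC → G.VHCUpper) ∧
    [G.VHCUpper, G.VHCHyperplane, G.ShortLefschetz, G.WeakLefschetz].TFAE ∧
    (G.VHCUpper → G.NumericalLefschetz ∧
      (∀ (X : V) (M : G.Bund X), [G.ConjB M, SignConj D X,
        ∀ k : ℕ, NilConj D (G.P k ⊗ (X ⊗ X))].TFAE) ∧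
      ∀ (X : V) (M : G.Bund X), (∀ i : ℕ, ∀ a ∈ D.deg X (2 * i + 1), a = 0) → G.ConjB M) :=
  ⟨(Geometry.main G hD hG hF).1, (Geometry.main G hD hG hF).2.1,
    fun h => Geometry.upper_of_vhc G hD h hF, Geometry.tfae4 G hD hG hF,
    Geometry.consequences G hD hG hF⟩

end Pool.Agent.Results.MP_298761_ag.SignImpliesVHC
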