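import Pool.Agent.Work.MP_298761_ths.B_BAI
import Pool.Agent.Work.MP_298761_ths.B_KEY
import Pool.Agent.Work.MP_298761_ths.B_MPP
import Pool.Agent.Work.MP_298761_ths.B_SER
import Pool.Agent.Work.MP_298761_ths.B_RKU
import Pool.Agent.Work.MP_298761_ths.B_RNK
import Pool.Agent.Work.MP_298761_ths.B_RAY
import Pool.Agent.Work.MP_298761_ths.B_LNE
import Pool.Agent.Work.MP_298761_ths.B_EIG
import Pool.Agent.Work.MP_298761_ths.B_DEN
import Pool.Agent.Work.MP_298761_ths.B_ORT
import Pool.Agent.Work.MP_298761_ths.B_DIM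
import Pool.Agent.Work.MP_298761_ths.B_TWO
import Pool.Agent.Work.MP_298761_ths.B_PSN
import Pool.Agent.Work.MP_298761_ths.B_PEN
import Pool.Agent.Work.MP_298761_ths.B_POS
import Pool.Agent.Work.MP_298761_ths.B_EUL
import Pool.Agent.Work.MP_298761_ths.B_EXK
import Pool.Agent.Work.MP_298761_ths.B_SGN
import Pool.Agent.Work.MP_298761_ths.B_LIN
import Pool.Agent.Work.MP_298761_ths.B_FZ1

/-!
# MP_298761_ag: flat Hodge classes of families with one fibre `D^b(Y, α)`, `Y` a surface

`Surface`: the rational cohomology of a smooth projective surface `Y` over `ℂ` with a Brauer class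
`α`; `V = K₀ᵗᵒᵖ(Y, α) ⊗ ℚ = H⁰ ⊕ H² ⊕ H⁴ = ℚ^(m+2)` (twisted Chern character, coordinates
`(r, c, s)`) with the Euler form `euler` of Riemann-Roch and the Hodge structure of weight `0` given
by `F1`. The subgroup `L` is for instance `K₀ᵗᵒᵖ(Y, α)` modulo torsion.

If `C ⊂ D_perf(X)` is an `S`-linear admissible subcategory whose fibre at one point `o` of `S` is
`D^b(Y, α)` (or has it as one component of a semiorthogonal decomposition near `o`), then on a
polydisc around `o` in `S` (in a resolution of `S`) the Hodge structures of `K₀ᵗᵒᵖ(C_s) ⊗ ℚ` (of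
the component) form a variation of polarisable Hodge structures with flat Euler form, and a basis
`ω` of `F¹` makes it an `IsVariation`; a global section of `K₀ᵗᵒᵖ(C/S)` which is Hodge at `o` is
`Flat`. The theorem says that the flat Hodge classes are generated by flat Hodge classes which at
`o` are classes of semiregular objects (O'Grady, Gieseker-Li, Lieblich in the first case, Mukai,
Yoshioka, Bayer-Macrì in the second), so which stay algebraic near `o` (Buchweitz-Flenner, Pridham).
-/

set_option autoImplicit false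

namespace Pool.Agent.Results.MP_298761_ag.SurfaceFibre

open THS

/-- **Flat Hodge classes near a surface.** Let `V_s` be a holomorphic variation of polarisable
rational Hodge structures on a polydisc, with the Euler form of a smooth projective surface `Y`
(twisted by a Brauer class) and with its Hodge structure at `s = 0`, and let `L` be a subgroup of
`V` with `L ⊗ ℚ = V` which contains the class of a point. If `K_Y` is not numerically trivial or
`p_g = 0`, the group of the flat Hodge classes in `L` is generated by its elements `v - M [pt]`,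
where `v` is a flat Hodge class of positive rank in `L` and `M ≥ M₀(v)`, for any prescribed function
`M₀`. If `Y` is a `K3` surface or an abelian surface, it is generated by its elements of positive
square `-χ(x, x)`. -/
theorem result (Y : Surface) (d g : ℕ) (ω : (Fin d → ℂ) → Fin g → Fin (Y.m + 2) → ℂ)
    (hω : IsVariation Y.euler ω) (h₀ : Submodule.span ℂ (Set.range (ω 0)) = Y.F1)
    (L : AddSubgroup (Fin (Y.m + 2) → ℚ)) (hL : ∀ v, ∃ N : ℕ, 0 < N ∧ N • v ∈ L)
    (hp : Y.point ∈ L) (φ : Fin (Y.m + 2) → ℚ) (hφL : φ ∈ L) (hφ : Flat Y.euler ω φ) :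
    ((Y.K ≠ 0 ∨ Y.p = 0) → ∀ M₀ : (Fin (Y.m + 2) → ℚ) → ℤ,
      φ ∈ AddSubgroup.closure {x | x ∈ L ∧ Flat Y.euler ω x ∧ ∃ v ∈ L, Flat Y.euler ω v ∧
        0 < v 0 ∧ ∃ M ≥ M₀ v, x = v - M • Y.point}) ∧
    (Y.K = 0 → Y.p ≠ 0 →
      φ ∈ AddSubgroup.closure {x | x ∈ L ∧ Flat Y.euler ω x ∧ valQ Y.euler x x < 0}) := by
  have hEUL : Stmt_EUL := p_EUL
  have hKEY : Stmt_KEY := p_KEY
  have hBAI : Stmt_BAI := p_BAI
  have hLNE : Stmt_LNE := p_LNE
  have hSER : Stmt_SER := p_SER p_MPP
  have hRKU : Stmt_RKU := p_RKU hBAI hKEY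
  have hEIG : Stmt_EIG := p_EIG p_RAY hLNE
  have hDIM : Stmt_DIM := p_DIM hLNE
  have hTWO : Stmt_TWO := p_TWO p_RNK hDIM hLNE hEIG p_DEN
  have hPEN : Stmt_PEN := p_PEN hBAI p_PSN
  have hPOS : Stmt_POS := p_POS hPEN hTWO p_ORT
  exact ⟨fun hK M₀ => fz1 hEUL (p_EXK hEUL) hSER hRKU Y d g ω hω h₀ hK L hL hp M₀ φ hφL hφ,
    fun hK hp' => fz2 (p_SGN hEUL) (p_LIN hEUL) hPOS Y d g ω hω h₀ hK hp' L hL φ hφL hφ⟩

end Pool.Agent.Results.MP_298761_ag.SurfaceFibre
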